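import Pool.Agent.V11131.Toep9

open Complex Metric
open Pool.Agent.V11131.Toep

namespace Pool.Agent.Results.MP_895317_an.HypercyclicSpectrum

/-- `H2` is the Hardy space as `ℓ²` of Taylor coefficients, `Phi γ φ z = γ / z + φ z`, and
`IsToeplitz γ φ T` says that `T = γ S* + T_φ` (in Taylor coefficients).

For `φ ∈ H^∞` the operator `T_Φ` exists and is unique; and if it is hypercyclic, then
`𝔻 ∩ σ(T_Φ) = 𝔻 ∩ (ℂ ∖ Φ(𝔻 ∖ {0}))`, and this set is not empty. -/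
theorem result :
    (∀ (γ : ℂ) (φ : ℂ → ℂ), DifferentiableOn ℂ φ (ball 0 1) →
      (∃ C : ℝ, ∀ z ∈ ball (0 : ℂ) 1, ‖φ z‖ ≤ C) →
      ∃! T : H2 →L[ℂ] H2, IsToeplitz γ φ T) ∧
    (∀ (γ : ℂ) (φ : ℂ → ℂ), DifferentiableOn ℂ φ (ball 0 1) →
      (∃ C : ℝ, ∀ z ∈ ball (0 : ℂ) 1, ‖φ z‖ ≤ C) →
      ∀ T : H2 →L[ℂ] H2, IsToeplitz γ φ T → Hypercyclic T →
        ball (0 : ℂ) 1 ∩ spectrum ℂ T =
          ball (0 : ℂ) 1 ∩ (Phi γ φ '' (ball (0 : ℂ) 1 \ {0}))ᶜ ∧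
        (ball (0 : ℂ) 1 ∩ spectrum ℂ T).Nonempty) := by
  refine ⟨fun γ φ hφ hb => existsUnique_toeplitz γ hφ hb, fun γ φ hφ hb T hT h => ?_⟩
  exact (spectrum_hypercyclic hφ hb hT h).2

end Pool.Agent.Results.MP_895317_an.HypercyclicSpectrum
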